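import Pool.Agent.Work.MP_6985d1_gg.Interface
set_option autoImplicit false

namespace GrigGrowth.helper87
open GrigGrowth

theorem cnt (s n : ℕ) : ((List.range (n + 1)).filter fun j => j = 0 ∨ ¬ 3 ∣ j ∨ j ≤ s).length + n / 3 =
    n + 1 + min (n / 3) (s / 3) := by
  induction n with
  | zero => simp
  | succ n ih =>
    rw [List.range_succ, List.filter_append, List.length_append]
    by_cases h3 : 3 ∣ n + 1
    · by_cases hs : n + 1 ≤ s
      · have h : (List.filter (fun j => decide (j = 0 ∨ ¬ 3 ∣ j ∨ j ≤ s)) [n + 1]).length = 1 := by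
          simp [hs]
        rw [h]; omega
      · have h : (List.filter (fun j => decide (j = 0 ∨ ¬ 3 ∣ j ∨ j ≤ s)) [n + 1]).length = 0 := by
          simp only [List.length_eq_zero_iff, List.filter_eq_nil_iff, List.mem_singleton, forall_eq,
            decide_eq_true_eq]
          push Not
          exact ⟨by omega, h3, by omega⟩
        rw [h]; omega
    · have h : (List.filter (fun j => decide (j = 0 ∨ ¬ 3 ∣ j ∨ j ≤ s)) [n + 1]).length = 1 := by
        simp [h3]
      rw [h]; omega

theorem stmt_JLEN : Stmt_JLEN := by
  intro M m hm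
  have h := cnt (fspec M m) (ftop M m)
  have h2 : (JJ M m).length + ftop M m / 3 = ftop M m + 1 + min (ftop M m / 3) (fspec M m / 3) := h
  unfold ftop fspec at h2
  generalize (M - m) / 24 = q at *
  omega

end GrigGrowth.helper87
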