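import Pool.Agent.Work.MP_6985d1_gg.Interface
set_option autoImplicit false

namespace GrigGrowth.helper87
open GrigGrowth

/-- weights of the syllables -/
noncomputable def wt (l : ℝ) : L → ℝ
  | .a => 1
  | .b => 1
  | .c => 2 / l
  | .d => 4 / l ^ 2

noncomputable def wts (l : ℝ) (u : List L) : ℝ := (u.map (wt l)).sum

theorem wts_append (l : ℝ) (u v : List L) : wts l (u ++ v) = wts l u + wts l v := by
  simp [wts]

theorem zl_wt {l : ℝ} (hl : IsRoot l) (y : L) : wts l (zl y) ≤ l * wt l y := by
  obtain ⟨h0, h1⟩ := hl
  have hne : l ≠ 0 := h0.ne'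
  cases y
  · simp [zl, wts, wt]; exact h0.le
  · simp only [zl, wts, wt, List.map_cons, List.map_nil, List.sum_cons, List.sum_nil]
    have : 1 + (4 / l ^ 2 + (2 / l + 0)) = l * 1 := by
      field_simp
      nlinarith
    exact this.le
  · simp only [zl, wts, wt, List.map_cons, List.map_nil, List.sum_cons, List.sum_nil]
    have : (1 : ℝ) + (1 + 0) = l * (2 / l) := by
      field_simp
      norm_num
    exact this.le
  · simp only [zl, wts, wt, List.map_cons, List.map_nil, List.sum_cons, List.sum_nil]
    have : 2 / l + (2 / l + 0) = l * (4 / l ^ 2) := by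
      field_simp
      norm_num
    exact this.le

theorem zeta_wt {l : ℝ} (hl : IsRoot l) (u : List L) : wts l (zeta u) ≤ l * wts l u := by
  induction u with
  | nil => simp [zeta, wts]
  | cons y u ih =>
    have h1 : zeta (y :: u) = zl y ++ zeta u := by simp [zeta]
    have h2 : wts l (y :: u) = wt l y + wts l u := by simp [wts]
    rw [h1, wts_append, h2, mul_add]
    exact add_le_add (zl_wt hl y) ih

theorem iter_wt {l : ℝ} (hl : IsRoot l) (j : ℕ) (u : List L) : wts l (zeta^[j] u) ≤ l ^ j * wts l u := by
  induction j with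
  | zero => simp
  | succ j ih =>
    rw [Function.iterate_succ_apply']
    calc wts l (zeta (zeta^[j] u)) ≤ l * wts l (zeta^[j] u) := zeta_wt hl _
      _ ≤ l * (l ^ j * wts l u) := mul_le_mul_of_nonneg_left ih hl.1.le
      _ = l ^ (j + 1) * wts l u := by ring

theorem len_le {l : ℝ} (hl : 2.46 < l) (hl2 : l < 2.47) (u : List L) : 0.65 * (u.length : ℝ) ≤ wts l u := by
  induction u with
  | nil => simp [wts]
  | cons y u ih =>
    have h2 : wts l (y :: u) = wt l y + wts l u := by simp [wts]
    have h3 : 0.65 ≤ wt l y := by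
      have h0 : (0 : ℝ) < l := by linarith
      cases y
      · simp only [wt]; norm_num
      · simp only [wt]; norm_num
      · simp only [wt]
        rw [le_div_iff₀ h0]; nlinarith
      · simp only [wt]
        rw [le_div_iff₀ (by positivity)]; nlinarith
    rw [h2]
    push_cast [List.length_cons]
    linarith

theorem wd_length (u : List L) : (wd u).length = 2 * u.length := by
  induction u with
  | nil => simp [wd]
  | cons y u ih =>
    have h : wd (y :: u) = [.a, y] ++ wd u := by simp [wd]
    rw [h, List.length_append, ih]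
    simp only [List.length_cons, List.length_nil]
    omega

theorem stmt_LEN (hROOT : Stmt_ROOT) : Stmt_LEN := by
  intro l hl j
  obtain ⟨l0, h0, huniq, hlo, hhi⟩ := hROOT
  have hll := huniq l hl
  subst hll
  have hlpos : (0 : ℝ) < l := hl.1
  have hl1 : (1 : ℝ) ≤ l := by linarith
  unfold fl
  by_cases hj : j = 0
  · subst hj
    norm_num
  · rw [if_neg hj, wd_length]
    have h3 : ∀ y : L, y = (if j % 3 = 2 then L.d else L.c) → wts l [y] ≤ 0.82 := by
      intro y hy
      have h4 : wts l [y] = wt l y := by simp [wts]
      rw [h4, hy]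
      split_ifs
      · simp only [wt]
        rw [div_le_iff₀ (by positivity)]; nlinarith
      · simp only [wt]
        rw [div_le_iff₀ hlpos]; nlinarith
    have h3' := h3 _ rfl
    have h1 := iter_wt hl j [if j % 3 = 2 then L.d else L.c]
    have h2 := len_le hlo hhi (zeta^[j] [if j % 3 = 2 then L.d else L.c])
    have h5 : (0 : ℝ) < l ^ j := by positivity
    have h6 : l ^ j * wts l [if j % 3 = 2 then L.d else L.c] ≤ l ^ j * 0.82 :=
      mul_le_mul_of_nonneg_left h3' h5.le
    rw [Nat.cast_mul, Nat.cast_ofNat]
    linarith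

end GrigGrowth.helper87
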